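import Pool.Agent.Y320.ST.Stm
import Pool.Agent.Y320.CM.Basic2

/-!
# Project ST: the stereographic coordinate
-/

set_option autoImplicit false
open Filter Topology

namespace Pool.Agent.Y692.ST
open Pool.Agent.Y320.CM Pool.Agent.Y320.ST

theorem nn_pos (z : ℂ) : 0 < 1 + ‖z‖ ^ 2 := by positivity

theorem nsq (z : ℂ) : ‖z‖ ^ 2 = z.re ^ 2 + z.im ^ 2 := by
  rw [← Complex.normSq_eq_norm_sq, Complex.normSq_apply]; ring

theorem sg0 (z : ℂ) : (sg z).1 0 = 2 * z.re / (1 + ‖z‖ ^ 2) := rfl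
theorem sg1 (z : ℂ) : (sg z).1 1 = 2 * z.im / (1 + ‖z‖ ^ 2) := rfl
theorem sg2 (z : ℂ) : (sg z).1 2 = (1 - ‖z‖ ^ 2) / (1 + ‖z‖ ^ 2) := rfl

theorem sg2' (z : ℂ) : 1 + (sg z).1 2 = 2 / (1 + ‖z‖ ^ 2) := by
  rw [sg2]
  have := nn_pos z
  field_simp
  ring

theorem inf0 : inf.1 0 = 0 := rfl
theorem inf1 : inf.1 1 = 0 := rfl
theorem inf2 : inf.1 2 = -1 := rfl

theorem st_sg (z : ℂ) : st (sg z) = z := by
  have h := nn_pos z
  apply Complex.ext
  · show (sg z).1 0 / (1 + (sg z).1 2) = z.re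
    rw [sg2', sg0]
    field_simp
  · show (sg z).1 1 / (1 + (sg z).1 2) = z.im
    rw [sg2', sg1]
    field_simp

theorem ne_inf {p : Sph} (hp : p ≠ inf) : 0 < 1 + p.1 2 := by
  have h := sph_sq p
  have h1 : 0 ≤ 1 + p.1 2 := by nlinarith [sq_nonneg (p.1 0), sq_nonneg (p.1 1), sq_nonneg (1 + p.1 2)]
  rcases h1.lt_or_eq with h2 | h2
  · exact h2
  · exfalso
    apply hp
    have e : p.1 2 = -1 := by linarith
    rw [e] at h
    have e0 : p.1 0 = 0 := by nlinarith [sq_nonneg (p.1 0), sq_nonneg (p.1 1)]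
    have e1 : p.1 1 = 0 := by nlinarith [sq_nonneg (p.1 0), sq_nonneg (p.1 1)]
    apply Subtype.ext
    ext i
    fin_cases i
    · exact e0
    · exact e1
    · exact e

theorem sg_st (p : Sph) (hp : p ≠ inf) : sg (st p) = p := by
  have hs := ne_inf hp
  have h := sph_sq p
  have hn : 1 + ‖st p‖ ^ 2 = 2 / (1 + p.1 2) := by
    rw [nsq]
    show 1 + ((p.1 0 / (1 + p.1 2)) ^ 2 + (p.1 1 / (1 + p.1 2)) ^ 2) = 2 / (1 + p.1 2)
    field_simp
    linarith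
  have hn2 : (1 - ‖st p‖ ^ 2) = 2 - 2 / (1 + p.1 2) := by rw [← hn]; ring
  apply Subtype.ext
  ext i
  fin_cases i
  · show 2 * (p.1 0 / (1 + p.1 2)) / (1 + ‖st p‖ ^ 2) = p.1 0
    rw [hn]
    field_simp
  · show 2 * (p.1 1 / (1 + p.1 2)) / (1 + ‖st p‖ ^ 2) = p.1 1
    rw [hn]
    field_simp
  · show (1 - ‖st p‖ ^ 2) / (1 + ‖st p‖ ^ 2) = p.1 2
    rw [hn, hn2]
    field_simp
    ring

theorem sg_ne_inf (z : ℂ) : sg z ≠ inf := by
  intro h
  have h1 := sg2' z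
  rw [h, inf2] at h1
  have h2 : 0 < 2 / (1 + ‖z‖ ^ 2) := div_pos two_pos (nn_pos z)
  linarith

theorem continuous_sg : Continuous sg := by
  unfold sg
  refine Continuous.subtype_mk ?_ _
  refine (PiLp.continuous_toLp 2 _).comp (continuous_pi fun i => ?_)
  have h : ∀ z : ℂ, 1 + ‖z‖ ^ 2 ≠ 0 := fun z => (nn_pos z).ne'
  fin_cases i
  · show Continuous fun z : ℂ => 2 * z.re / (1 + ‖z‖ ^ 2)
    exact (by fun_prop : Continuous fun z : ℂ => 2 * z.re).div (by fun_prop) h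
  · show Continuous fun z : ℂ => 2 * z.im / (1 + ‖z‖ ^ 2)
    exact (by fun_prop : Continuous fun z : ℂ => 2 * z.im).div (by fun_prop) h
  · show Continuous fun z : ℂ => (1 - ‖z‖ ^ 2) / (1 + ‖z‖ ^ 2)
    exact (by fun_prop : Continuous fun z : ℂ => 1 - ‖z‖ ^ 2).div (by fun_prop) h

theorem continuousOn_st : ContinuousOn st {inf}ᶜ := by
  have e : st = fun p : Sph => ((p.1 0 / (1 + p.1 2) : ℝ) : ℂ) + ((p.1 1 / (1 + p.1 2) : ℝ) : ℂ) * Complex.I := by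
    funext p
    exact Complex.mk_eq_add_mul_I _ _
  rw [e]
  have h : ∀ p ∈ ({inf}ᶜ : Set Sph), 1 + p.1 2 ≠ 0 := fun p hp => (ne_inf hp).ne'
  have c0 : Continuous fun p : Sph => p.1 0 := by fun_prop
  have c1 : Continuous fun p : Sph => p.1 1 := by fun_prop
  have c2 : Continuous fun p : Sph => 1 + p.1 2 := by fun_prop
  have k0 : ContinuousOn (fun p : Sph => p.1 0 / (1 + p.1 2)) {inf}ᶜ :=
    c0.continuousOn.div c2.continuousOn h
  have k1 : ContinuousOn (fun p : Sph => p.1 1 / (1 + p.1 2)) {inf}ᶜ :=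
    c1.continuousOn.div c2.continuousOn h
  exact (Complex.continuous_ofReal.comp_continuousOn k0).add
    ((Complex.continuous_ofReal.comp_continuousOn k1).mul continuousOn_const)

theorem cdist_sq (z w : ℂ) : dist z w ^ 2 = (z.re - w.re) ^ 2 + (z.im - w.im) ^ 2 := by
  rw [Complex.dist_eq, nsq, Complex.sub_re, Complex.sub_im]

theorem dist_sg (z w : ℂ) :
    dist (sg z) (sg w) = 2 * dist z w / √((1 + ‖z‖ ^ 2) * (1 + ‖w‖ ^ 2)) := by
  have hz := nn_pos z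
  have hw := nn_pos w
  rw [← sq_eq_sq₀ dist_nonneg (by positivity), div_pow, Real.sq_sqrt (by positivity), mul_pow,
    dist_sq, cdist_sq, sg0, sg0, sg1, sg1, sg2, sg2]
  have e1 := nsq z
  have e2 := nsq w
  rw [e1] at hz ⊢
  rw [e2] at hw ⊢
  field_simp
  ring

theorem dist_inf (z : ℂ) : dist (sg z) inf = 2 / √(1 + ‖z‖ ^ 2) := by
  have hz := nn_pos z
  rw [← sq_eq_sq₀ dist_nonneg (by positivity), div_pow, Real.sq_sqrt (by positivity),
    dist_sq, inf0, inf1, inf2, sg0, sg1, sg2]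
  have e1 := nsq z
  rw [e1] at hz ⊢
  field_simp
  ring

theorem cr_inf (a b c : ℂ) (_ : a ≠ c) : cr (sg a) (sg b) (sg c) inf = dist a b / dist a c := by
  unfold cr
  rw [dist_sg, dist_sg, dist_inf, dist_inf]
  have ha := nn_pos a
  have hb := nn_pos b
  have hc := nn_pos c
  rw [Real.sqrt_mul ha.le, Real.sqrt_mul ha.le]
  have qa := Real.sqrt_pos.2 ha
  have qb := Real.sqrt_pos.2 hb
  have qc := Real.sqrt_pos.2 hc
  have e1 : 2 * dist a b / (√(1 + ‖a‖ ^ 2) * √(1 + ‖b‖ ^ 2)) * (2 / √(1 + ‖c‖ ^ 2)) =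
      dist a b * (4 / (√(1 + ‖a‖ ^ 2) * √(1 + ‖b‖ ^ 2) * √(1 + ‖c‖ ^ 2))) := by
    field_simp; ring
  have e2 : 2 * dist a c / (√(1 + ‖a‖ ^ 2) * √(1 + ‖c‖ ^ 2)) * (2 / √(1 + ‖b‖ ^ 2)) =
      dist a c * (4 / (√(1 + ‖a‖ ^ 2) * √(1 + ‖b‖ ^ 2) * √(1 + ‖c‖ ^ 2))) := by
    field_simp; ring
  rw [e1, e2]
  exact mul_div_mul_right _ _ (by positivity)

theorem cr_sg (a b c e : ℂ) :
    cr (sg a) (sg b) (sg c) (sg e) = dist a b * dist c e / (dist a c * dist b e) := by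
  rw [← norm_chi, chi_sg, norm_div, norm_mul, norm_mul, Complex.dist_eq, Complex.dist_eq,
    Complex.dist_eq, Complex.dist_eq]

theorem stb : S_STB :=
  ⟨st_sg, sg_st, sg_ne_inf, continuous_sg, continuousOn_st, dist_sg, dist_inf, cr_inf, cr_sg⟩

end Pool.Agent.Y692.ST
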